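import Pool.Agent.Results.MP_3554b5_lc.UnramifiedNorms
import Pool.Agent.R614.NF.Emb
import Pool.Agent.Run7.h339.AE6
import Pool.Agent.Run7.h339.AE7

/-!
# Algebraic extensions of the rational numbers which are NIP, `NIP_n` or NTP2

Let `κ` be an algebraic extension of the field of rational numbers (not necessarily a Galois
extension) which is NIP, or `NIP_n` for some `n`, or NTP2, or only a residue field of a field
elementarily equivalent to a field with one of these properties, and let `ℓ` be a prime number. We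
show that the supernatural degree of `κ` over the rational numbers is divisible by `ℓ ^ ∞`, and more
generally: every subfield `F` of `κ` over which `κ` has an `ℓ`-bounded degree has less than `N`
places with an `ℓ`-bounded local degree, where `N` depends only on the theory and on `ℓ`; and if the
elements of `κ` have odd degrees over `F`, then `F` has less than `N` real places. (For `κ = K`
Question 1 predicts that `κ` is algebraically closed, real closed or henselian.)

The proof: let `v` be a place of `F` whose local degrees are `ℓ`-bounded. By the formula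
`∑ e f = [L₁ : F₀]` for number fields `F₀` and `L₁ = F₀(a)`, and since the absolute Galois group of
the rational numbers is compact and acts transitively on the prime ideals over a prime number, `v`
extends to a place of `κ` whose local degrees are `ℓ`-bounded. This place is not tame at `ℓ`. By the
starting result `UnramifiedNorms` there are less than `N` such places.

`NIPField`, `NIPnField`, `NTP2Field` are defined in `Pool.Agent.W882.Nip3.Defs`, `center v E` (the
prime ideal of the integers of `E` of value less than one) in `Pool.Agent.R614.GE.Val`.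
-/

set_option autoImplicit false

namespace Pool.Agent.Results.MP_3554b5_lc.AlgebraicExtensions

open Pool.Agent.W882.Nip3 Pool.Agent.R614.NF Pool.Agent.R614.GE NNReal NumberField
open Pool.Agent.Results.MP_3554b5_lc.UnramifiedNorms Run7.h339.AE

/-- The local degrees of the valuation `v` of `F` have bounded `ℓ`-parts: for some `M` and all
number fields `E` contained in `F` the product `e f` of the ramification index and the inertia
degree over the rational numbers of the prime ideal of `E` which consists of the integers of value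
less than one is not divisible by `ℓ ^ M`. -/
def LocallyBounded {F : Type} [Field F] [CharZero F] (ℓ : ℕ) (v : Valuation F ℝ≥0) : Prop :=
  ∃ M : ℕ, ∀ (E : IntermediateField ℚ F) [NumberField E],
    ¬ ℓ ^ M ∣ (center v E).ramificationIdx (𝓞 ℚ) * (center v E).inertiaDeg (𝓞 ℚ)

/-- The valuations `v i` are nontrivial, their local degrees have bounded `ℓ`-parts, and they are
pairwise inequivalent. -/
def BoundedFamily {F : Type} [Field F] [CharZero F] (ℓ : ℕ) {N : ℕ}
    (v : Fin N → Valuation F ℝ≥0) : Prop :=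
  (∀ i, ∃ a, 1 < v i a) ∧ (∀ i, LocallyBounded ℓ (v i)) ∧ Pairwise fun i j => ¬ (v i).IsEquiv (v j)

/-- The degrees over `F` of the elements of `κ` have bounded `ℓ`-parts. -/
def BoundedDegrees (ℓ : ℕ) (F κ : Type) [Field F] [Field κ] [Algebra F κ] : Prop :=
  ∃ M : ℕ, ∀ a : κ, ¬ ℓ ^ M ∣ (minpoly F a).natDegree

/-- For every `M` there is a number field `L` contained in `F` such that the local degree `e f` is
divisible by `ℓ ^ M` for all prime ideals of `L` over the prime number `p`. -/
def DivisibleAt (ℓ : ℕ) (F : Type) [Field F] [CharZero F] (p : ℕ) : Prop :=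
  ∀ M : ℕ, ∃ (L : IntermediateField ℚ F) (_ : NumberField L), ∀ q : Ideal (𝓞 L), q.IsPrime →
    (p : 𝓞 L) ∈ q → ℓ ^ M ∣ q.ramificationIdx (𝓞 ℚ) * q.inertiaDeg (𝓞 ℚ)

section rational

theorem ld_rat (E : FS ℚ) (q : Ideal (𝓞 E.1)) [q.IsPrime] (hq : q ≠ ⊥) : ld q = 1 := by
  classical
  have h0 : Module.finrank ℚ E.1 = 1 := by
    have h1 : @Module.finrank ℚ E.1 _ _ E.1.algebra'.toModule ≤ Module.finrank ℚ ℚ :=
      Submodule.finrank_le (Subalgebra.toSubmodule E.1.toSubalgebra)
    have h2 : @Module.finrank ℚ E.1 _ _ (DivisionRing.toRatAlgebra.toModule) =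
      @Module.finrank ℚ E.1 _ _ E.1.algebra'.toModule := by
      congr 1
    rw [Module.finrank_self] at h1
    have h3 : 0 < Module.finrank ℚ E.1 := Module.finrank_pos
    omega
  obtain ⟨p, hp⟩ : ∃ p : Ideal (𝓞 ℚ), p = q.under (𝓞 ℚ) := ⟨_, rfl⟩
  have hpq : q.LiesOver p := ⟨hp⟩
  have hpp : p.IsPrime := by rw [hp]; exact Ideal.IsPrime.under (𝓞 ℚ) q
  have hp0 : p ≠ ⊥ := by
    intro h
    rw [h] at hpq
    exact hq (Ideal.eq_bot_of_liesOver_bot (𝓞 ℚ) q)
  have hfin : Finite (p.primesOver (𝓞 E.1)) := by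
    have : p.IsMaximal := Ideal.IsPrime.isMaximal inferInstance hp0
    exact (IsDedekindDomain.primesOver_finite p (𝓞 E.1))
  have : Fintype (p.primesOver (𝓞 E.1)) := Fintype.ofFinite _
  have h1 := Ideal.sum_ramification_inertia_eq_finrank p (𝓞 E.1)
  have h2 : Module.finrank (𝓞 ℚ) (𝓞 E.1) = Module.finrank ℚ E.1 := by
    exact (IsFractionRing.finrank_eq (𝓞 ℚ) ℚ (𝓞 E.1) E.1).symm
  rw [h2, h0] at h1
  have h3 := Finset.single_le_sum (f := fun x : p.primesOver (𝓞 E.1) =>
    x.1.ramificationIdx (𝓞 ℚ) * x.1.inertiaDeg (𝓞 ℚ)) (fun _ _ => Nat.zero_le _)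
    (Finset.mem_univ (⟨q, inferInstance, hpq⟩ : p.primesOver (𝓞 E.1)))
  rw [h1] at h3
  have h4 := ld_pos q
  have h5 : ld q ≤ 1 := h3
  omega

/-- there are arbitrarily many bounded places of the field of rational numbers -/
theorem exists_rat (ℓ : ℕ) (hℓ : ℓ.Prime) (N : ℕ) :
    ∃ v : Fin N → Valuation ℚ ℝ≥0, BoundedFamily ℓ v := by
  have hpr : ∀ n : ℕ, (Nat.nth Nat.Prime n).Prime := Nat.prime_nth_prime
  choose w hw1 hw2 using fun n : ℕ => exists_padic ℚ (κ := ℚ) (Nat.nth Nat.Prime n) (hpr n)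
  have hne : ∀ i j : ℕ, i ≠ j → Nat.nth Nat.Prime i ≠ Nat.nth Nat.Prime j := fun i j hij h =>
    hij (Nat.nth_injective Nat.infinite_setOfPred_prime h)
  have hnt : ∀ i : ℕ, ∃ a, 1 < w i a := by
    intro i
    refine ⟨((Nat.nth Nat.Prime i : ℕ) : ℚ)⁻¹, ?_⟩
    rw [map_inv₀]
    refine (one_lt_inv₀ (pos_iff_ne_zero.2 ?_)).2 (hw1 i)
    rw [Valuation.ne_zero_iff]
    exact_mod_cast (hpr i).ne_zero
  refine ⟨fun i => w i, fun i => hnt i, fun i => ⟨1, fun E hE => ?_⟩, fun i j hij h => ?_⟩
  · have hfd : FiniteDimensional ℚ E := hE.2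
    have h1 : ld (center (w i) (⟨E, hfd⟩ : FS ℚ).1) = 1 :=
      ld_rat ⟨E, hfd⟩ _ (center_ne_bot (w i) _ (hnt i))
    have h2 : (center (w i) E).ramificationIdx (𝓞 ℚ) * (center (w i) E).inertiaDeg (𝓞 ℚ) = 1 := h1
    rw [h2, pow_one, Nat.dvd_one]
    exact hℓ.one_lt.ne'
  · have hij' : (i : ℕ) ≠ j := fun h => hij (Fin.ext h)
    have h1 : w i ((Nat.nth Nat.Prime i : ℕ) : ℚ) < 1 ↔
      w j ((Nat.nth Nat.Prime i : ℕ) : ℚ) < 1 := Valuation.isEquiv_iff_val_lt_one.1 h
    have h2 := h1.1 (hw1 i)
    rw [hw2 j _ (hpr i) (hne i j hij')] at h2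
    exact lt_irrefl _ h2

end rational

/-- Let `K` be a field which is NIP (the hypothesis of `S14569`), or `NIP_n` for some `n`, or
`NTP2`, and let `ℓ` be a prime number. There is a number `N`, which depends only on the theory of `K`
and on `ℓ`, with the following property. Let `K'` be a field elementarily equivalent to `K` (for
example `K' = K`), `O` a valuation ring of `K'` (for example `O = K'`), `κ` its residue field, and
suppose that `κ` is an algebraic extension of the field of rational numbers. Then: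

(1) `κ` contains elements whose degrees over the field of rational numbers are divisible by
arbitrarily high powers of `ℓ`;

(2) let `F` be any field with an embedding in `κ` such that the degrees over `F` of the elements of
`κ` have bounded `ℓ`-parts (for example `F = κ`). Then there are no `N` pairwise inequivalent
nontrivial valuations of `F` with real values whose local degrees have bounded `ℓ`-parts. And among
any `N` prime numbers there is a `p` such that for every `M` there is a number field `L` contained in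
`F` such that `e f` is divisible by `ℓ ^ M` for all prime ideals of `L` over `p`;

(3) let `F` be any field with an embedding in `κ` such that the degrees over `F` of the elements of
`κ` are odd (for example `F = κ`). Then `F` has less than `N` embeddings in the field of real
numbers. -/
theorem result (K : Type) [Field K] [FirstOrder.Ring.CompatibleRing K]
    (hK : NIPField K ∨ (∃ n, NIPnField n K) ∨ NTP2Field K) (ℓ : ℕ) (hℓ : ℓ.Prime) :
    ∃ N : ℕ, ∀ (K' : Type) [Field K'] [FirstOrder.Ring.CompatibleRing K'],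
      FirstOrder.Language.ring.ElementarilyEquivalent K K' →
      ∀ (O : ValuationSubring K') (κ : Type) [Field κ] (π : O →+* κ), Function.Surjective π →
      ∀ [CharZero κ] [Algebra.IsAlgebraic ℚ κ],
      (∀ M : ℕ, ∃ a : κ, ℓ ^ M ∣ (minpoly ℚ a).natDegree) ∧
      (∀ (F : Type) [Field F] [CharZero F] [Algebra F κ], BoundedDegrees ℓ F κ →
        (¬ ∃ v : Fin N → Valuation F ℝ≥0, BoundedFamily ℓ v) ∧
        ∀ s : Finset ℕ, (∀ p ∈ s, p.Prime) → N ≤ s.card → ∃ p ∈ s, DivisibleAt ℓ F p) ∧
      ∀ (F : Type) [Field F] [CharZero F] [Algebra F κ],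
        (∀ a : κ, Odd (minpoly F a).natDegree) →
        ¬ ∃ σ : Fin N → (F →+* ℝ), Function.Injective σ := by
  obtain ⟨N₁, hN₁⟩ := (UnramifiedNorms.result K hK).1 ℓ
  obtain ⟨N₂, hN₂⟩ := few_local K hK
  refine ⟨max N₁ N₂, fun K' _ _ hKK' O κ _ π hπ _ _ => ?_⟩
  have main : ∀ (F : Type) [Field F] [CharZero F] [Algebra F κ],
        (∃ M : ℕ, ∀ a : κ, ¬ ℓ ^ M ∣ (minpoly F a).natDegree) →
        ¬ ∃ v : Fin (max N₁ N₂) → Valuation F ℝ≥0, BoundedFamily ℓ v := by
    rintro F _ _ _ ⟨M₂, hM₂⟩ ⟨v', hv1', hv2', hv3'⟩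
    have hF : Algebra.IsAlgebraic ℚ F :=
      Algebra.IsAlgebraic.tower_bot ℚ F κ
    obtain ⟨v, hv⟩ : ∃ v : Fin N₁ → Valuation F ℝ≥0,
        v = fun i => v' (Fin.castLE (le_max_left _ _) i) := ⟨_, rfl⟩
    have hv1 : ∀ i, ∃ a, 1 < v i a := by
      intro i
      rw [hv]
      exact hv1' _
    have hv2 : ∀ i, LocallyBounded ℓ (v i) := by
      intro i
      rw [hv]
      exact hv2' _
    have hv3 : Pairwise fun i j => ¬ (v i).IsEquiv (v j) := by
      intro i j hij
      rw [hv]
      exact hv3' (fun h => hij (Fin.castLE_injective _ h))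
    have h1 : ∀ i, ∃ w : Valuation κ ℝ≥0, (∃ a, 1 < w a) ∧
        (v i).IsEquiv (w.comap (algebraMap F κ)) ∧ ¬ Div w ℓ ∧ HasExt w ℓ := by
      intro i
      obtain ⟨M₁, hM₁⟩ := hv2 i
      obtain ⟨w, hw1, hw2, hw3⟩ := exists_val (v i) (hv1 i) hℓ (M₁ := M₁)
        (fun E => hM₁ E.1) hM₂
      exact ⟨w, hw1, hw2,
        Run7.h339.AE.not_div_of_bounded w hw1 hℓ (M := M₁ + M₂) fun L h => hw3 L (h.mul_right _),
        Run7.h339.AE.exists_ext_of_bounded w hw1 hℓ (M := M₁ + M₂)
          fun L h => hw3 L (h.mul_left _)⟩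
    choose w hw1 hw2 hw3 hw4 using h1
    have hinc : Pairwise fun i j => ∃ z, w i z < 1 ∧ 1 < w j z := by
      intro i j hij
      refine incomp (hw1 i) (hw1 j) fun h => hv3 hij ?_
      have h2 : (w i).IsEquiv (w j) := (Valuation.isEquiv_iff_valuationSubring _ _).2 h
      exact (hw2 i).trans ((h2.comap (algebraMap F κ)).trans (hw2 j).symm)
    let P : Fin N₁ → ValuedPlace K' := fun i => ⟨O, κ, inferInstance, π, hπ, w i⟩
    obtain ⟨i, hi⟩ := (hN₁ K' hKK').1 P (by
      intro i j hij
      obtain ⟨z, hz1, hz2⟩ := hinc hij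
      obtain ⟨x, hx⟩ := hπ z
      have hz0 : z ≠ 0 := by
        rintro rfl
        rw [map_zero] at hz2
        exact absurd hz2 (not_lt.2 zero_le_one)
      have hu : IsUnit x := isUnit_of_ne O π hπ x (by rw [hx]; exact hz0)
      obtain ⟨u, rfl⟩ := hu
      have hux : ((u : O) : K') ≠ 0 := fun h0 => u.ne_zero (Subtype.ext h0)
      have hinv : ((u⁻¹ : Oˣ) : O).1 = ((u : O) : K')⁻¹ := by
        apply eq_inv_of_mul_eq_one_left
        have h1 := congrArg Subtype.val (Units.inv_mul u)
        exact h1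
      refine ⟨((u : O) : K'), hux, ⟨(u : O).2, ?_⟩, ?_⟩
      · show w i (π ⟨((u : O) : K'), _⟩) < 1
        have h2 : (⟨((u : O) : K'), (u : O).2⟩ : O) = u := rfl
        rw [h2, hx]
        exact hz1
      · rw [← hinv]
        refine ⟨((u⁻¹ : Oˣ) : O).2, ?_⟩
        show w j (π ⟨((u⁻¹ : Oˣ) : O).1, _⟩) < 1
        have h2 : (⟨((u⁻¹ : Oˣ) : O).1, ((u⁻¹ : Oˣ) : O).2⟩ : O) = ((u⁻¹ : Oˣ) : O) := rfl
        have h3 : π ((u⁻¹ : Oˣ) : O) = z⁻¹ := by
          apply eq_inv_of_mul_eq_one_left
          rw [← hx, ← map_mul, Units.inv_mul, map_one]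
        rw [h2, h3, map_inv₀]
        exact inv_lt_one_of_one_lt₀ hz2)
    rcases (hi ℓ hℓ.one_le le_rfl).1 with h1 | h1
    · exact (hw3 i) h1
    · exact h1 (hw4 i)
  refine ⟨fun M => ?_, fun F _ _ _ hF => ⟨main F hF, fun s hs hcard => ?_⟩,
    fun F _ _ _ hF => ?_⟩
  · by_contra hcon
    push Not at hcon
    exact main ℚ ⟨M, hcon⟩ (exists_rat ℓ hℓ _)
  · -- the uniform statement
    by_contra hcon
    unfold DivisibleAt at hcon
    push Not at hcon
    apply main F hF
    have hFa : Algebra.IsAlgebraic ℚ F := Algebra.IsAlgebraic.tower_bot ℚ F κ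
    have h1 : ∀ i : Fin (max N₁ N₂), ∃ w : Valuation F ℝ≥0,
        w ((s.orderEmbOfCardLe hcard i : ℕ) : F) < 1 ∧
        (∀ r : ℕ, r.Prime → r ≠ s.orderEmbOfCardLe hcard i → w r = 1) ∧
        ∃ M, ∀ L : FS F, ¬ ℓ ^ M ∣ ld (center w L.1) := by
      intro i
      have hi := s.orderEmbOfCardLe_mem hcard i
      obtain ⟨M, hM⟩ := hcon _ hi
      obtain ⟨w, hw1, hw2, hw3⟩ := exists_val_of_primes (F := F) _ (hs _ hi) ℓ M (fun L => by
        obtain ⟨q, hq1, hq2, hq3⟩ := hM L.1 (fsNum L)
        exact ⟨q, hq1, hq2, hq3⟩)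
      exact ⟨w, hw1, hw2, M, hw3⟩
    choose w hw1 hw2 hw3 using h1
    refine ⟨w, fun i => ?_, fun i => ?_, fun i j hij h => ?_⟩
    · refine ⟨((s.orderEmbOfCardLe hcard i : ℕ) : F)⁻¹, ?_⟩
      rw [map_inv₀]
      refine (one_lt_inv₀ (pos_iff_ne_zero.2 ?_)).2 (hw1 i)
      rw [Valuation.ne_zero_iff]
      exact_mod_cast (hs _ (s.orderEmbOfCardLe_mem hcard i)).ne_zero
    · obtain ⟨M, hM⟩ := hw3 i
      refine ⟨M, fun E hE => ?_⟩
      have hfd : FiniteDimensional ℚ E := hE.2
      exact hM ⟨E, hfd⟩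
    · have hij' : s.orderEmbOfCardLe hcard i ≠ s.orderEmbOfCardLe hcard j := fun h =>
        hij ((s.orderEmbOfCardLe hcard).injective h)
      have h1 : w i ((s.orderEmbOfCardLe hcard i : ℕ) : F) < 1 ↔
        w j ((s.orderEmbOfCardLe hcard i : ℕ) : F) < 1 := Valuation.isEquiv_iff_val_lt_one.1 h
      have h2 := h1.1 (hw1 i)
      rw [hw2 j _ (hs _ (s.orderEmbOfCardLe_mem hcard i)) hij'] at h2
      exact lt_irrefl _ h2
  · -- the real places
    rintro ⟨σ, hσ⟩
    have hFa : Algebra.IsAlgebraic ℚ F := Algebra.IsAlgebraic.tower_bot ℚ F κ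
    have hFκ : Algebra.IsAlgebraic F κ := Algebra.IsAlgebraic.tower_top (K := ℚ) F
    choose τ hτ using fun i => exists_real hF (σ i)
    let P : Fin N₂ → LocalPlace K' := fun i =>
      .real ⟨O, κ, inferInstance, π, hπ, τ (Fin.castLE (le_max_right _ _) i)⟩
    obtain ⟨i, j, hij, h⟩ := hN₂ K' hKK' P
    have h1 : ∀ z : κ, |τ (Fin.castLE (le_max_right _ _) i) z| ≤ 1 →
        |τ (Fin.castLE (le_max_right _ _) j) z| ≤ 1 := by
      intro z hz
      obtain ⟨x, hx⟩ := hπ z
      have h2 : x.1 ∈ (P i).ball := by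
        refine ⟨x.2, ?_⟩
        show |τ (Fin.castLE (le_max_right _ _) i) (π x)| ≤ 1
        rw [hx]
        exact hz
      rw [h] at h2
      obtain ⟨h3, h4⟩ := h2
      have h5 : |τ (Fin.castLE (le_max_right _ _) j) (π x)| ≤ 1 := h4
      rwa [hx] at h5
    have h2 := real_eq_of_ball h1
    have h3 : σ (Fin.castLE (le_max_right _ _) i) = σ (Fin.castLE (le_max_right _ _) j) := by
      rw [← hτ, ← hτ, h2]
    exact hij (Fin.castLE_injective _ (hσ h3))

end Pool.Agent.Results.MP_3554b5_lc.AlgebraicExtensions
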